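import Pool.Agent.Helper139.Pr15

set_option autoImplicit false

namespace Pool.Agent.Results.MP_0bd5b4_an.LieSpectrumMaps

open Pool.Agent.Helper139

universe u v

section Defs

variable {X : Type u} [NormedAddCommGroup X] [NormedSpace ℂ X]
variable {Y : Type v} [NormedAddCommGroup Y] [NormedSpace ℂ Y]

/-- The Banach space adjoint of `T`, acting on the dual space by `f ↦ f ∘ T`. -/
noncomputable def adjoint (T : X →L[ℂ] X) : (X →L[ℂ] ℂ) →L[ℂ] (X →L[ℂ] ℂ) :=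
  (ContinuousLinearMap.compL ℂ X X ℂ).flip T

/-- Sanity check: the adjoint acts by composition. -/
lemma adjoint_apply (T : X →L[ℂ] X) (f : X →L[ℂ] ℂ) (x : X) : adjoint T f x = f (T x) := rfl

/-- `T` is commutator symmetric: for every bounded `S` the spectrum of `[T, S]` is symmetric
about the origin. -/
def CommSymmetric (T : X →L[ℂ] X) : Prop :=
  ∀ S : X →L[ℂ] X, ∀ z ∈ spectrum ℂ (T * S - S * T), -z ∈ spectrum ℂ (T * S - S * T)

/-- First standard form: `φ T = c ε(T) A T A⁻¹ + η(T) 1` with `c = 1` or `c = -1`, where `A` is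
an isomorphism from `X` onto `Y` and `ε(T)` is a sign, equal to `1` unless `T` is commutator
symmetric. -/
def FirstForm (φ : (X →L[ℂ] X) → (Y →L[ℂ] Y)) : Prop :=
  ∃ (A : X ≃L[ℂ] Y) (c : ℂ) (ε η : (X →L[ℂ] X) → ℂ), (c = 1 ∨ c = -1) ∧
    (∀ T, ε T = 1 ∨ ε T = -1) ∧ (∀ T, ¬ CommSymmetric T → ε T = 1) ∧
    ∀ T, φ T = (c * ε T) • ((A : X →L[ℂ] Y) ∘L T ∘L (A.symm : Y →L[ℂ] X)) +
      η T • (1 : Y →L[ℂ] Y)

/-- Second standard form: `φ T = c ε(T) A T* A⁻¹ + η(T) 1` with `c = i` or `c = -i`, where `A`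
is an isomorphism from the dual of `X` onto `Y` and `ε(T)` is a sign, equal to `1` unless `T`
is commutator symmetric. -/
def SecondForm (φ : (X →L[ℂ] X) → (Y →L[ℂ] Y)) : Prop :=
  ∃ (A : (X →L[ℂ] ℂ) ≃L[ℂ] Y) (c : ℂ) (ε η : (X →L[ℂ] X) → ℂ), (c = Complex.I ∨ c = -Complex.I) ∧
    (∀ T, ε T = 1 ∨ ε T = -1) ∧ (∀ T, ¬ CommSymmetric T → ε T = 1) ∧
    ∀ T, φ T = (c * ε T) • ((A : (X →L[ℂ] ℂ) →L[ℂ] Y) ∘L adjoint T ∘L
      (A.symm : Y →L[ℂ] (X →L[ℂ] ℂ))) + η T • (1 : Y →L[ℂ] Y)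

end Defs

/-- Complete description, in every dimension, of the surjective maps preserving the spectrum of
commutators, together with the size of the set of operators on which the sign is free. -/
theorem result {X : Type u} {Y : Type v} [NormedAddCommGroup X] [NormedSpace ℂ X]
    [CompleteSpace X] [NormedAddCommGroup Y] [NormedSpace ℂ Y] [CompleteSpace Y]
    (φ : (X →L[ℂ] X) → (Y →L[ℂ] Y)) (hφ : Function.Surjective φ) :
    ((∀ T S : X →L[ℂ] X,
      spectrum ℂ (φ T * φ S - φ S * φ T) = spectrum ℂ (T * S - S * T)) ↔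
      (FirstForm φ ∨ SecondForm φ)) ∧
    (∀ T : X →L[ℂ] X, CommSymmetric T →
      ∃ a b : ℂ, T * T = a • T + b • (1 : X →L[ℂ] X)) ∧
    (∀ (T : X →L[ℂ] X) (a b : ℂ), a ≠ b →
      (T - a • (1 : X →L[ℂ] X)) * (T - b • (1 : X →L[ℂ] X)) = 0 → CommSymmetric T) := by
  refine ⟨⟨fun h => Pr.std_of_star_all hφ h, ?_⟩, fun T hT => Pr.quad_of_sym hT,
    fun T a b hab h => Pr.sym_of_quad hab h⟩
  rintro (h | h)
  · exact Pr.star_of_std1 h
  · exact Pr.star_of_std2 h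

end Pool.Agent.Results.MP_0bd5b4_an.LieSpectrumMaps
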